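import Pool.Agent.Helper50.RG.Final

/-!
# The giant rigid component of a random graph emerges at the stopping time

For every `d ≥ 2`, with probability tending to `1` as `n → ∞`, the random graph process satisfies
`GiantAtStop`: the stopping time `τ` (first time at which the `(d+1)`-core is non-empty and has at
least `d n' - d (d + 1) / 2` edges) exists, for every `t < τ` the graph has no `d`-rigid component
with more than three vertices, and at time `τ` the `((d+1)+d)`-core is a `d`-rigid component.
-/

set_option autoImplicit false

namespace Pool.Agent.Results.MP_6be5e0_co.HittingTime

open Pool.Agent.Helper50.RG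

theorem result (d : ℕ) (hd : 2 ≤ d) :
    Filter.Tendsto
      (fun n : ℕ => (Nat.card {σ : Ord n // GiantAtStop d σ} : ℝ) / Nat.card (Ord n))
      Filter.atTop (nhds 1) :=
  giant_whp d hd

end Pool.Agent.Results.MP_6be5e0_co.HittingTime
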